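import Pool.Agent.helper7.Blk.Step
import Pool.Agent.helper17.DyS.Sym

/-!
# Symmetries and branching tilings

The event that the unit cube has an `h`-branching tiling is preserved by the masks.
-/

set_option autoImplicit false
open scoped Classical
open Finset Pool.Agent.helper17.Dya Pool.Agent.helper17.DyS Pool.Agent.helper7.Blk

namespace Pool.Agent.helper51.Blk

lemma Sym_Sb {n : ℕ} (m : Fin 3 → ℕ) {C B : Tl} (h : Sb C B) (hC : ∀ i, C.1 i ≤ n) :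
    Sb (Sym_b n m C) (Sym_b n m B) := by
  intro i
  refine ⟨(h i).1, ?_⟩
  show (C.2 i ^^^ (m i / 2 ^ (n - C.1 i))) / 2 ^ (C.1 i - B.1 i) =
    B.2 i ^^^ (m i / 2 ^ (n - B.1 i))
  rw [Sym_div, (h i).2, Nat.div_div_eq_div_mul, ← pow_add,
    show n - C.1 i + (C.1 i - B.1 i) = n - B.1 i by have := (h i).1; have := hC i; omega]

lemma Sym_Vp {n : ℕ} {m : Fin 3 → ℕ} (hm : ∀ i, m i < 2 ^ n) {B : Tl} (h : Vp B)
    (hB : ∀ i, B.1 i ≤ n) : Vp (Sym_b n m B) := by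
  intro i
  refine Nat.xor_lt_two_pow (h i) ?_
  refine Nat.div_lt_of_lt_mul ?_
  rw [← pow_add]
  rw [show n - B.1 i + (Sym_b n m B).1 i = n from Nat.sub_add_cancel (hB i)]
  exact hm i

lemma Sym_Cv' (n : ℕ) (m : Fin 3 → ℕ) {B : Tl} {x : Fin 3 → ℕ} (h : Cv n (Sym_b n m B) x) :
    Cv n B (Sym_x m x) := by
  rw [← Sym_x_x m x, Sym_Cv] at h
  exact h

lemma Sym_Dj {n : ℕ} {m : Fin 3 → ℕ} (hm : ∀ i, m i < 2 ^ n) {C D : Tl} (h : Dj n C D) :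
    Dj n (Sym_b n m C) (Sym_b n m D) := by
  intro x hx h1 h2
  exact h (Sym_x m x) (fun i => Nat.xor_lt_two_pow (hx i) (hm i)) (Sym_Cv' n m h1)
    (Sym_Cv' n m h2)

lemma Sym_Un {n : ℕ} {m : Fin 3 → ℕ} (hm : ∀ i, m i < 2 ^ n) {R : Set (It n)} {B : Tl}
    (h : Un R B) : Un {b | Sym_t hm b ∈ R} (Sym_b n m B) := by
  intro x hx hB
  obtain ⟨b, hb, h1, h2⟩ := h (Sym_x m x) (fun i => Nat.xor_lt_two_pow (hx i) (hm i))
    (Sym_Cv' n m hB)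
  refine ⟨Sym_t hm b, ?_, Sym_Sb m h1 b.2.le, ?_⟩
  · show Sym_t hm (Sym_t hm b) ∈ R
    rw [Sym_t_t]
    exact hb
  · show Cv n (Sym_b n m b.1) x
    rw [← Sym_x_x m x, Sym_Cv]
    exact h2

lemma Sym_Good {h n : ℕ} {m : Fin 3 → ℕ} (hm : ∀ i, m i < 2 ^ n) {R : Set (It n)} {B : Tl}
    (H : Good h R B) : Good h {b | Sym_t hm b ∈ R} (Sym_b n m B) := by
  induction H with
  | small B hU hn => exact .small _ (Sym_Un hm hU) hn
  | two B C D hU hC hD hCD _ _ ihC ihD =>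
    rcases Nat.lt_or_ge (od B + h) n with hlt | hge
    · have hle : ∀ E : Tl, od E ≤ od B + h → ∀ i, E.1 i ≤ n := by
        intro E hE i
        have := le_od E i
        omega
      exact .two _ (Sym_b n m C) (Sym_b n m D) (Sym_Un hm hU)
        ⟨Sym_Vp hm hC.1 (hle C hC.2.2), Sym_Sb m hC.2.1 (hle C hC.2.2), hC.2.2⟩
        ⟨Sym_Vp hm hD.1 (hle D hD.2.2), Sym_Sb m hD.2.1 (hle D hD.2.2), hD.2.2⟩
        (Sym_Dj hm hCD) ihC ihD
    · exact .small _ (Sym_Un hm hU) hge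

lemma Sym_b_cube {n : ℕ} {m : Fin 3 → ℕ} (hm : ∀ i, m i < 2 ^ n) : Sym_b n m cube = cube := by
  refine Prod.ext rfl (funext fun i => ?_)
  show 0 ^^^ (m i / 2 ^ (n - 0)) = 0
  rw [Nat.zero_xor, Nat.sub_zero, Nat.div_eq_of_lt (hm i)]

lemma Sym_AlB_of {h n : ℕ} {m : Fin 3 → ℕ} (hm : ∀ i, m i < 2 ^ n) {ω : It n → Bool}
    (H : AlB h n cube (fun b => ω (Sym_t hm b))) : AlB h n cube ω := by
  obtain ⟨R, h1, h2, h6⟩ := H
  have h7 := Sym_Good hm h6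
  rw [Sym_b_cube hm] at h7
  refine ⟨{b | Sym_t hm b ∈ R}, fun b hb => ⟨?_, Sym_cube b.2⟩, fun x hx _ => ?_, h7⟩
  · have h3 : ω (Sym_t hm (Sym_t hm b)) = true := (h1 _ hb).1
    rw [Sym_t_t] at h3
    exact h3
  · have hx' : ∀ i, Sym_x m x i < 2 ^ n := fun i => Nat.xor_lt_two_pow (hx i) (hm i)
    obtain ⟨b, ⟨hb1, hb2⟩, hb3⟩ := h2 (Sym_x m x) hx' (fun i => Nat.div_eq_of_lt (hx' i))
    refine ⟨Sym_t hm b, ⟨?_, ?_⟩, ?_⟩
    · show Sym_t hm (Sym_t hm b) ∈ R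
      rw [Sym_t_t]
      exact hb1
    · show Cv n (Sym_b n m b.1) x
      rw [← Sym_x_x m x, Sym_Cv]
      exact hb2
    · rintro b' ⟨hb1', hb2'⟩
      have h4 : Cv n (Sym_t hm b').1 (Sym_x m x) := (Sym_Cv n m b'.1 x).2 hb2'
      rw [← hb3 (Sym_t hm b') ⟨hb1', h4⟩, Sym_t_t]

lemma Sym_AlB {h n : ℕ} {m : Fin 3 → ℕ} (hm : ∀ i, m i < 2 ^ n) (ω : It n → Bool) :
    AlB h n cube (fun b => ω (Sym_t hm b)) ↔ AlB h n cube ω := by
  refine ⟨Sym_AlB_of hm, fun H => Sym_AlB_of hm ?_⟩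
  simp only [Sym_t_t]
  exact H

lemma Sym_PivB {h n : ℕ} {m : Fin 3 → ℕ} (hm : ∀ i, m i < 2 ^ n) (b : It n) (ω : It n → Bool) :
    Piv (AlB h n cube) b (fun j => ω (Sym_t hm j)) ↔ Piv (AlB h n cube) (Sym_t hm b) ω := by
  unfold Piv
  rw [Sym_up, Sym_up, Sym_AlB, Sym_AlB]

/-- boxes of the same shape have the same influence -/
theorem pivB_sym {h n : ℕ} {p : ℝ} {b b' : It n} (hb : b.1.1 = b'.1.1) :
    Pr p (Piv (AlB h n cube) b) = Pr p (Piv (AlB h n cube) b') := by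
  have hm : ∀ i, (b.1.2 i ^^^ b'.1.2 i) * 2 ^ (n - b.1.1 i) < 2 ^ n := by
    intro i
    have h1 : b.1.2 i ^^^ b'.1.2 i < 2 ^ b.1.1 i := by
      refine Nat.xor_lt_two_pow (b.2.2 i) ?_
      rw [hb]
      exact b'.2.2 i
    calc (b.1.2 i ^^^ b'.1.2 i) * 2 ^ (n - b.1.1 i) < 2 ^ b.1.1 i * 2 ^ (n - b.1.1 i) :=
          Nat.mul_lt_mul_of_pos_right h1 (by positivity)
      _ = 2 ^ n := by rw [← pow_add, Nat.add_sub_cancel' (b.2.le i)]
  have h2 : Sym_t hm b = b' := by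
    refine Subtype.ext (Prod.ext hb (funext fun i => ?_))
    show b.1.2 i ^^^ ((b.1.2 i ^^^ b'.1.2 i) * 2 ^ (n - b.1.1 i) / 2 ^ (n - b.1.1 i)) = b'.1.2 i
    rw [Nat.mul_div_cancel _ (by positivity), ← Nat.xor_assoc, Nat.xor_self, Nat.zero_xor]
  rw [← Pr_comp (Sym_t hm) (Sym_t_inj hm) (Piv (AlB h n cube) b)]
  refine Pr_congr fun ω => ?_
  rw [Sym_PivB hm b ω, h2]

/-- there are `2 ^ n` boxes of the shape of `b` -/
theorem pivB_le {h n : ℕ} {p : ℝ} (h0 : 0 ≤ p) (h1 : p ≤ 1) (b : It n) :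
    2 ^ n * Pr p (Piv (AlB h n cube) b) ≤ Infl p (AlB h n cube) := by
  let g : (∀ i, Fin (2 ^ b.1.1 i)) → It n := fun a =>
    ⟨(b.1.1, fun i => (a i : ℕ)), b.2.1, fun i => (a i).2⟩
  have hg : Function.Injective g := by
    intro a a' h
    funext i
    have h2 := congrFun (congrArg (fun c : It n => c.1.2) h) i
    exact Fin.ext h2
  have hc : (Fintype.card (∀ i, Fin (2 ^ b.1.1 i)) : ℝ) = 2 ^ n := by
    rw [Fintype.card_pi]
    simp only [Fintype.card_fin]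
    rw [Finset.prod_pow_eq_pow_sum, b.2.1]
    push_cast
    rfl
  calc 2 ^ n * Pr p (Piv (AlB h n cube) b)
      = ∑ a : (∀ i, Fin (2 ^ b.1.1 i)), Pr p (Piv (AlB h n cube) (g a)) := by
        rw [Finset.sum_congr rfl fun a _ => pivB_sym (b := g a) (b' := b) rfl, Finset.sum_const,
          Finset.card_univ, nsmul_eq_mul, hc]
    _ = ∑ c ∈ univ.map ⟨g, hg⟩, Pr p (Piv (AlB h n cube) c) := by
        rw [Finset.sum_map]
        rfl
    _ ≤ ∑ c, Pr p (Piv (AlB h n cube) c) :=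
        Finset.sum_le_sum_of_subset_of_nonneg (subset_univ _) fun c _ _ => Pr_nonneg h0 h1 _
    _ = Infl p (AlB h n cube) := rfl

end Pool.Agent.helper51.Blk
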